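import Pool.Agent.H33.SMS.Targets2

/-!
# Row GRD of the board sms (helper33, MP_ec36a5_nt)

Greedy choice of a subset.
-/

set_option autoImplicit false

namespace Pool.Agent.H1.SMS

open Pool.Agent.H33.SMS

theorem grd_aux (f : ℕ → ℕ) (X N : ℝ) (hX : 1 ≤ X) (hN : X * X ≤ N) (S : Finset ℕ)
    (hS : ∀ p ∈ S, 1 ≤ f p ∧ (f p : ℝ) < X) (hP : X ≤ ∏ p ∈ S, (f p : ℝ)) :
    ∃ S' ⊆ S, X ≤ ∏ p ∈ S', (f p : ℝ) ∧ ∏ p ∈ S', (f p : ℝ) ≤ N := by
  classical
  induction S using Finset.induction_on with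
  | empty =>
    refine ⟨∅, Finset.Subset.refl _, hP, ?_⟩
    rw [Finset.prod_empty]
    nlinarith
  | insert p S hp ih =>
    have hS' : ∀ q ∈ S, 1 ≤ f q ∧ (f q : ℝ) < X := fun q hq => hS q (Finset.mem_insert_of_mem hq)
    have hfp := hS p (Finset.mem_insert_self _ _)
    have hfp1 : (1 : ℝ) ≤ f p := by exact_mod_cast hfp.1
    rcases le_or_gt X (∏ q ∈ S, (f q : ℝ)) with h | h
    · obtain ⟨S', h1, h2, h3⟩ := ih hS' h
      exact ⟨S', h1.trans (Finset.subset_insert _ _), h2, h3⟩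
    · refine ⟨insert p S, Finset.Subset.refl _, hP, ?_⟩
      rw [Finset.prod_insert hp]
      have h0 : 0 ≤ ∏ q ∈ S, (f q : ℝ) := Finset.prod_nonneg fun q _ => Nat.cast_nonneg _
      calc (f p : ℝ) * ∏ q ∈ S, (f q : ℝ) ≤ X * X :=
            mul_le_mul hfp.2.le h.le h0 (by linarith)
        _ ≤ N := hN

theorem pf_GRD : T_GRD := by
  intro S f X N hX hN hS hP
  by_cases h : ∃ p ∈ S, X ≤ (f p : ℝ)
  · obtain ⟨p, hp, hpX⟩ := h
    refine ⟨{p}, Finset.singleton_subset_iff.mpr hp, ?_, ?_⟩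
    · rw [Finset.prod_singleton]; exact hpX
    · rw [Finset.prod_singleton]; exact (hS p hp).2
  · push Not at h
    exact grd_aux f X N hX hN S (fun p hp => ⟨(hS p hp).1, h p hp⟩) hP

end Pool.Agent.H1.SMS
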