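import Pool.Agent.H33.SMS.Targets2

/-!
# Row KB of the board sms (helper33, MP_ec36a5_nt)

The number of exceptional `s`.
-/

set_option autoImplicit false

namespace Pool.Agent.H1.SMS

open Pool.Agent.H33.SMS

theorem pf_KB (hC : T_CRD) (hG : T_GOO) : T_KB := by
  classical
  intro n hn
  unfold KK
  set L := n.primeFactors.filter (fun p => ¬ Bad p n) with hL
  set Q := ∏ p ∈ L, p with hQ
  have hLp : ∀ p ∈ L, p.Prime ∧ p ∣ n ∧ ¬ Bad p n := by
    intro p hp
    rw [hL, Finset.mem_filter, Nat.mem_primeFactors] at hp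
    exact ⟨hp.1.1, hp.1.2.1, hp.2⟩
  have hQ0 : 0 < Q := Finset.prod_pos fun p hp => (hLp p hp).1.pos
  have hQn : Q ∣ n := Finset.prod_primes_dvd n (fun p hp => (hLp p hp).1.prime)
    fun p hp => (hLp p hp).2.1
  have hdvd : ∀ s ∈ (Finset.Ico 1 n).filter (fun s => ¬ Det n s), Q ∣ s := by
    intro s hs
    rw [Finset.mem_filter, Finset.mem_Ico] at hs
    rw [hQ]
    apply Finset.prod_primes_dvd
    · intro p hp
      exact (hLp p hp).1.prime
    · intro p hp
      obtain ⟨hpp, hpn, hpB⟩ := hLp p hp
      by_contra hps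
      exact hs.2 (hC p n s (hG p n s hpp hpn hpB hps hs.1.2) hs.1.2)
  obtain ⟨m, hm⟩ := hQn
  have hdiv : n / Q = m := by
    conv_lhs => rw [hm]
    exact Nat.mul_div_cancel_left m hQ0
  rw [hdiv]
  calc ((Finset.Ico 1 n).filter (fun s => ¬ Det n s)).card ≤ (Finset.range m).card := by
        apply Finset.card_le_card_of_injOn (fun s => s / Q)
        · intro s hs
          have hs' := hs
          rw [Finset.mem_coe, Finset.mem_filter, Finset.mem_Ico] at hs'
          rw [Finset.mem_coe, Finset.mem_range, Nat.div_lt_iff_lt_mul hQ0, mul_comm, ← hm]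
          exact hs'.1.2
        · intro s hs t ht hst
          have h1 := hdvd s (Finset.mem_coe.1 hs)
          have h2 := hdvd t (Finset.mem_coe.1 ht)
          have h3 : s / Q = t / Q := hst
          rw [← Nat.div_mul_cancel h1, ← Nat.div_mul_cancel h2, h3]
    _ = m := Finset.card_range m

end Pool.Agent.H1.SMS
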