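import Pool.Agent.H33.SMS.Targets

/-!
# Row NEW of the board sms (helper33, MP_ec36a5_nt)

Newton's identities for a multiset.
-/

set_option autoImplicit false

namespace Pool.Agent.H1.SMS

open Pool.Agent.H33.SMS Pool.Agent.H14.MT

theorem tele {R : Type} [CommRing R] (e : ℕ → R) (a : R) (t : ℕ) :
    ∑ i ∈ Finset.range t, (-1) ^ i * (e (t - i) * a ^ (i + 1) + e (t - 1 - i) * a ^ (i + 2)) +
      (-1) ^ t * e 0 * a ^ (t + 1) = a * e t := by
  have h := Finset.sum_range_sub' (fun i => (-1 : R) ^ i * e (t - i) * a ^ (i + 1)) t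
  have h1 : ∑ i ∈ Finset.range t,
      (-1) ^ i * (e (t - i) * a ^ (i + 1) + e (t - 1 - i) * a ^ (i + 2)) =
      ∑ i ∈ Finset.range t, ((-1 : R) ^ i * e (t - i) * a ^ (i + 1) -
        (-1) ^ (i + 1) * e (t - (i + 1)) * a ^ (i + 1 + 1)) := by
    refine Finset.sum_congr rfl fun i _ => ?_
    rw [show t - (i + 1) = t - 1 - i by omega]
    ring
  rw [h1, h]
  simp
  ring

theorem pf_NEW : T_NEW := by
  intro R _ M
  induction M using Multiset.induction_on with
  | empty =>
    intro s
    have hp : ∀ i, ps (0 : Multiset R) i = 0 := by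
      intro i
      unfold ps
      rw [Multiset.map_zero, Multiset.sum_zero]
    rw [Finset.sum_eq_zero fun i _ => by rw [hp, mul_zero]]
    rcases Nat.eq_zero_or_pos s with h | h
    · subst h
      simp
    · have h1 : (0 : Multiset R).esymm s = 0 := by
        unfold Multiset.esymm
        rw [Multiset.powersetCard_eq_empty s (by simpa using h)]
        simp
      rw [h1, mul_zero]
  | cons a M ih =>
    intro s
    rcases Nat.eq_zero_or_pos s with h | h
    · subst h
      simp
    · obtain ⟨t, rfl⟩ : ∃ t, s = t + 1 := ⟨s - 1, by omega⟩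
      rw [esymm_cons, Finset.sum_range_succ]
      have e0 : t + 1 - 1 - t = 0 := by omega
      rw [e0, esymm_zero', ps_cons]
      have h1 : ∑ i ∈ Finset.range t, (-1) ^ i * (a ::ₘ M).esymm (t + 1 - 1 - i) *
          ps (a ::ₘ M) (i + 1) = ∑ i ∈ Finset.range t, (-1) ^ i * M.esymm (t + 1 - 1 - i) *
          ps M (i + 1) + a * ∑ i ∈ Finset.range t, (-1) ^ i * M.esymm (t - 1 - i) * ps M (i + 1) +
          ∑ i ∈ Finset.range t, (-1) ^ i * (M.esymm (t - i) * a ^ (i + 1) +
            M.esymm (t - 1 - i) * a ^ (i + 2)) := by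
        rw [Finset.mul_sum, ← Finset.sum_add_distrib, ← Finset.sum_add_distrib]
        refine Finset.sum_congr rfl fun i hi => ?_
        have hi' := Finset.mem_range.mp hi
        have e1 : t + 1 - 1 - i = (t - 1 - i) + 1 := by omega
        have e2 : t - i = (t - 1 - i) + 1 := by omega
        rw [e1, esymm_cons, ps_cons, e2]
        ring
      rw [h1]
      have h2 := ih (t + 1)
      rw [Finset.sum_range_succ, e0, esymm_zero'] at h2
      have h3 := ih t
      have h4 := tele (fun j => M.esymm j) a t
      simp only [esymm_zero'] at h4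
      push_cast at h2 ⊢
      linear_combination h2 + a * h3 - h4

end Pool.Agent.H1.SMS
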